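import Mathlib
import Pool.Agent.Run7.h50.SX.Clique

/-!
# Separator exponent versus expansion exponent

`A` is the set of all `c > 0` such that for every `0 < δ ≤ 1` every monotone class whose `n`-vertex
graphs have balanced separators of order `O(n ^ (1 - δ))` has expansion `O(r ^ (c / δ))`. We show
that every `c` in `A` is at least `1`: for every `δ` there is a monotone class with balanced
separators of order `O(n ^ (1 - δ))` in which the complete graph on `⌊r ^ (1 / δ - 1)⌋` vertices is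
a depth-`r` minor, for every `r ≥ 1`. The class consists of the subgraphs of the complete graphs on
`t` vertices all of whose edges are subdivided about `s` times, where `t ^ δ ≤ s ^ (1 - δ)`.
-/

set_option autoImplicit false

open SimpleGraph

namespace Pool.Agent.Results.MP_2f3b43_co.ExponentOne

/-- `S` is a balanced separator of `G`: every component of `G - S` has at most two thirds of the
vertices of `G`. -/
def IsBalancedSeparator {V : Type} (G : SimpleGraph V) (S : Set V) : Prop :=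
  ∀ C : (G.induce Sᶜ).ConnectedComponent, 3 * C.supp.ncard ≤ 2 * Nat.card V

/-- `H` is a depth-`r` minor of `G`: there are pairwise disjoint sets `B i` of vertices of `G`,
one for every vertex `i` of `H`, such that `G[B i]` has a vertex `x i` from which every vertex of
`B i` is reached by a walk of length at most `r` inside `B i` (so it is connected of radius at
most `r`), and for every edge `i j` of `H` the graph `G` has an edge between `B i` and `B j`. -/
def IsMinor {V : Type} (G : SimpleGraph V) (r : ℕ) {n : ℕ} (H : SimpleGraph (Fin n)) : Prop :=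
  ∃ (B : Fin n → Set V) (x : Fin n → V),
    (∀ i j, i ≠ j → Disjoint (B i) (B j)) ∧
    (∀ i, x i ∈ B i ∧ ∀ y ∈ B i, ∃ p : G.Walk (x i) y, p.length ≤ r ∧ ∀ z ∈ p.support, z ∈ B i) ∧
    (∀ i j, H.Adj i j → ∃ a ∈ B i, ∃ b ∈ B j, G.Adj a b)

/-- a class of finite graphs which is closed under isomorphism and under taking subgraphs -/
structure IsMonotoneClass (𝒞 : (V : Type) → SimpleGraph V → Prop) : Prop where
  finite : ∀ (V : Type) (G : SimpleGraph V), 𝒞 V G → Finite V
  mono : ∀ (V W : Type) (G : SimpleGraph V) (H : SimpleGraph W) (f : H →g G),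
    𝒞 V G → Function.Injective f → 𝒞 W H

/-- the `n`-vertex graphs in `𝒞` have balanced separators of order `O(n ^ (1 - δ))` -/
def HasSeparators (𝒞 : (V : Type) → SimpleGraph V → Prop) (δ : ℝ) : Prop :=
  ∃ C : ℝ, ∀ (V : Type) (G : SimpleGraph V), 𝒞 V G →
    ∃ S : Set V, IsBalancedSeparator G S ∧ (S.ncard : ℝ) ≤ C * (Nat.card V : ℝ) ^ (1 - δ)

/-- `𝒞` has expansion `O(r ^ β)`: for some `C`, all depth-`r` minors (`r ≥ 1`) of graphs in `𝒞` have
average degree at most `C * r ^ β` -/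
def HasExpansion (𝒞 : (V : Type) → SimpleGraph V → Prop) (β : ℝ) : Prop :=
  ∃ C : ℝ, ∀ (V : Type) (G : SimpleGraph V), 𝒞 V G → ∀ (r n : ℕ) (H : SimpleGraph (Fin n)),
    1 ≤ r → IsMinor G r H → 2 * (H.edgeSet.ncard : ℝ) ≤ C * (r : ℝ) ^ β * n

/-- the set `A` of the problem -/
def A : Set ℝ :=
  {c | 0 < c ∧ ∀ δ : ℝ, 0 < δ → δ ≤ 1 → ∀ 𝒞 : (V : Type) → SimpleGraph V → Prop,
    IsMonotoneClass 𝒞 → HasSeparators 𝒞 δ → HasExpansion 𝒞 (c / δ)}

/-- the class of the subgraphs of subdivided complete graphs, in an abstract form -/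
def Cls (δ : ℝ) (V : Type) (G : SimpleGraph V) : Prop :=
  Finite V ∧ ∃ s t : ℕ, 1 ≤ s ∧ (t : ℝ) ^ δ ≤ (s : ℝ) ^ (1 - δ) ∧ ∃ B : Set V, B.ncard ≤ t ∧
    (∀ v ∉ B, Run7.h50.SX.DegTwo G v) ∧
    ∀ u ∈ B, ∀ v ∈ B, u ≠ v → ∀ p : G.Walk u v, s < p.length

lemma cls_mono (δ : ℝ) : IsMonotoneClass (Cls δ) := by
  refine ⟨fun V G h => h.1, ?_⟩
  rintro V W G H f ⟨hV, s, t, hs, hst, B, hB, hdeg, hdist⟩ hf
  refine ⟨Finite.of_injective f hf, s, t, hs, hst, f ⁻¹' B, ?_, ?_, ?_⟩
  · have h1 : (f '' (f ⁻¹' B)).ncard = (f ⁻¹' B).ncard := Set.ncard_image_of_injective _ hf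
    have h2 : (f '' (f ⁻¹' B)).ncard ≤ B.ncard :=
      Set.ncard_le_ncard (Set.image_preimage_subset f B) (Set.toFinite _)
    omega
  · intro v hv x y z hx hy hz
    rcases hdeg (f v) hv (f x) (f y) (f z) (f.map_adj hx) (f.map_adj hy) (f.map_adj hz)
      with h | h | h
    · exact Or.inl (hf h)
    · exact Or.inr (Or.inl (hf h))
    · exact Or.inr (Or.inr (hf h))
  · intro u hu v hv huv p
    have := hdist (f u) hu (f v) hv (fun h => huv (hf h)) (p.map f)
    rwa [Walk.length_map] at this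

lemma walk_outer {V : Type} {G : SimpleGraph V} {T : Set V} {a b : T}
    (w : (G.induce T).Walk a b) :
    ∃ p : G.Walk a.1 b.1, ∀ z ∈ p.support, ∃ y ∈ w.support, y.1 = z := by
  induction w with
  | nil => exact ⟨Walk.nil, by simp⟩
  | @cons u v t hadj w ih =>
    obtain ⟨p, hp⟩ := ih
    refine ⟨Walk.cons (by simpa using hadj) p, ?_⟩
    intro z hz
    rw [Walk.support_cons, List.mem_cons] at hz
    rcases hz with rfl | hz
    · exact ⟨u, by simp, rfl⟩
    · obtain ⟨y, hy, hyz⟩ := hp z hz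
      exact ⟨y, by simp [hy], hyz⟩

lemma cls_sep (δ : ℝ) (hδ : 0 < δ) (hδ1 : δ ≤ 1) : HasSeparators (Cls δ) δ := by
  refine ⟨5, ?_⟩
  rintro V G ⟨hV, s, t, hs, hst, B, hB, hdeg, hdist⟩
  obtain ⟨S, hS, h, hS1, hhB, hh⟩ := Run7.h50.SX.exists_sep s B hdeg hdist
  rcases isEmpty_or_nonempty V with hE | hne
  · refine ⟨∅, ?_, ?_⟩
    · intro C
      have : C.supp.ncard = 0 := by
        rw [Set.eq_empty_of_isEmpty C.supp, Set.ncard_empty]
      omega
    · rw [Set.ncard_empty, Nat.cast_zero]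
      positivity
  refine ⟨S, ?_, ?_⟩
  · intro C
    have h1 : Disjoint (Subtype.val '' C.supp) S := by
      rw [Set.disjoint_left]
      rintro _ ⟨z, -, rfl⟩
      exact z.2
    have h2 : Run7.h50.SX.Conn G (Subtype.val '' C.supp) := by
      classical
      rintro _ ⟨a, ha, rfl⟩ _ ⟨b, hb, rfl⟩
      obtain ⟨w⟩ : (G.induce Sᶜ).Reachable a b := by
        rw [← SimpleGraph.ConnectedComponent.eq]
        rw [SimpleGraph.ConnectedComponent.mem_supp_iff] at ha hb
        rw [ha, hb]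
      obtain ⟨w', hw'⟩ := walk_outer w
      refine ⟨w', ?_⟩
      intro z hz
      obtain ⟨y, hy, rfl⟩ := hw' z hz
      refine ⟨y, ?_, rfl⟩
      rw [SimpleGraph.ConnectedComponent.mem_supp_iff] at ha ⊢
      rw [← ha, SimpleGraph.ConnectedComponent.eq]
      exact (w.takeUntil y hy).reachable.symm
    have h3 := hS _ h1 h2
    rwa [Set.ncard_image_of_injective _ Subtype.val_injective] at h3
  · set m : ℝ := (Nat.card V : ℝ) with hm
    have hm1 : 1 ≤ m := by
      rw [hm]
      exact_mod_cast Nat.succ_le_of_lt (Nat.card_pos (α := V))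
    have hm2 : 1 ≤ m ^ (1 - δ) := Real.one_le_rpow hm1 (by linarith)
    have hs' : (1 : ℝ) ≤ s := by exact_mod_cast hs
    have hS2 : (S.ncard : ℝ) ≤ h + 2 := by exact_mod_cast hS1
    have ht : (h : ℝ) ≤ t := by exact_mod_cast hhB.trans hB
    have key : (h : ℝ) ≤ 2 * m ^ (1 - δ) + 1 := by
      rcases Nat.lt_or_ge h 2 with h2 | h2
      · have : (h : ℝ) ≤ 1 := by exact_mod_cast Nat.le_of_lt_succ h2
        linarith
      · have h3 : (h : ℝ) * (s + 1) ≤ 2 * m := by
          rw [hm]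
          exact_mod_cast hh h2
        have h4 : (h : ℝ) * s ≤ 2 * m := by nlinarith [Nat.cast_nonneg (α := ℝ) h]
        have ht0 : (0 : ℝ) ≤ t := Nat.cast_nonneg t
        rcases le_total m ((t : ℝ) * s) with h5 | h5
        · have h6 : m ^ δ ≤ s := by
            calc m ^ δ ≤ ((t : ℝ) * s) ^ δ := Real.rpow_le_rpow (by linarith) h5 hδ.le
              _ = (t : ℝ) ^ δ * (s : ℝ) ^ δ := Real.mul_rpow ht0 (by linarith)
              _ ≤ (s : ℝ) ^ (1 - δ) * (s : ℝ) ^ δ := by gcongr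
              _ = s := by
                rw [← Real.rpow_add (by linarith)]
                simp
          have h7 : m = m ^ (1 - δ) * m ^ δ := by
            rw [← Real.rpow_add (by linarith)]
            simp
          have h8 : (h : ℝ) * s ≤ 2 * m ^ (1 - δ) * s := by
            calc (h : ℝ) * s ≤ 2 * m := h4
              _ = 2 * (m ^ (1 - δ) * m ^ δ) := by rw [← h7]
              _ ≤ 2 * (m ^ (1 - δ) * s) := by gcongr
              _ = 2 * m ^ (1 - δ) * s := by ring
          have h9 := le_of_mul_le_mul_right h8 (by linarith)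
          linarith
        · rcases eq_or_lt_of_le ht0 with h0 | h0
          · rw [← h0] at ht
            linarith
          have h6 : (t : ℝ) ≤ m ^ (1 - δ) := by
            calc (t : ℝ) = (t : ℝ) ^ (1 - δ) * (t : ℝ) ^ δ := by
                  rw [← Real.rpow_add h0]
                  simp
              _ ≤ (t : ℝ) ^ (1 - δ) * (s : ℝ) ^ (1 - δ) := by gcongr
              _ = ((t : ℝ) * s) ^ (1 - δ) := (Real.mul_rpow ht0 (by linarith)).symm
              _ ≤ m ^ (1 - δ) := Real.rpow_le_rpow (by positivity) h5 (by linarith)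
          linarith
    linarith

lemma cls_minor (δ : ℝ) (hδ : 0 < δ) (r : ℕ) (hr : 1 ≤ r) :
    ∃ (V : Type) (G : SimpleGraph V), Cls δ V G ∧
      IsMinor G r (⊤ : SimpleGraph (Fin ⌊(r : ℝ) ^ (1 / δ - 1)⌋₊)) := by
  set t := ⌊(r : ℝ) ^ (1 / δ - 1)⌋₊ with ht
  have hr' : (1 : ℝ) ≤ r := by exact_mod_cast hr
  refine ⟨Run7.h50.SX.SV t r, Run7.h50.SX.SG t r, ⟨inferInstance, r, t, hr, ?_,
    Set.range Sum.inl, ?_, fun v hv => Run7.h50.SX.sg_deg t r v hv, ?_⟩, ?_⟩
  · have h1 : (t : ℝ) ≤ (r : ℝ) ^ (1 / δ - 1) := Nat.floor_le (by positivity)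
    calc (t : ℝ) ^ δ ≤ ((r : ℝ) ^ (1 / δ - 1)) ^ δ :=
          Real.rpow_le_rpow (Nat.cast_nonneg t) h1 hδ.le
      _ = (r : ℝ) ^ (1 - δ) := by
          rw [← Real.rpow_mul (by linarith)]
          congr 1
          field_simp
  · rw [← Set.image_univ, Set.ncard_image_of_injective _ Sum.inl_injective, Set.ncard_univ,
      Nat.card_eq_fintype_card, Fintype.card_fin]
  · rintro _ ⟨i, rfl⟩ _ ⟨j, rfl⟩ hij p
    exact Run7.h50.SX.sg_dist t r i j (fun h => hij (by rw [h])) p
  · refine ⟨Run7.h50.SX.BS t r, fun i => .inl i, ?_, ?_, ?_⟩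
    · intro i j hij
      rw [Set.disjoint_left]
      rintro (a | ⟨a, b, k⟩) h1 h2
      · exact hij (Eq.trans (Eq.symm h1) h2)
      · exact hij (Eq.trans (Eq.symm h1) h2)
    · intro i
      refine ⟨by simp [Run7.h50.SX.BS], ?_⟩
      rintro (a | ⟨a, b, k⟩) h1
      · have h2 : a = i := h1
        subst h2
        refine ⟨Walk.nil, by simp, ?_⟩
        intro z hz
        simp only [Walk.support_nil, List.mem_cons, List.not_mem_nil, or_false] at hz
        subst hz
        exact h1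
      · have h2 : a = i := h1
        subst h2
        obtain ⟨p, hp1, hp2⟩ := Run7.h50.SX.bs_walk t r a b k.val k.isLt
        exact ⟨p, by have := k.isLt; omega, hp2⟩
    · intro i j hij
      exact Run7.h50.SX.bs_edge t r hr i j hij.ne

/-- (1) For every `0 < δ ≤ 1` there is a monotone class of finite graphs with balanced separators of
order `O(n ^ (1 - δ))` such that for every `r ≥ 1` the complete graph on `⌊r ^ (1 / δ - 1)⌋`
vertices is a depth-`r` minor of a graph in the class. (2) Every element of `A` is at least `1`. -/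
theorem result :
    (∀ δ : ℝ, 0 < δ → δ ≤ 1 → ∃ 𝒞 : (V : Type) → SimpleGraph V → Prop,
      IsMonotoneClass 𝒞 ∧ HasSeparators 𝒞 δ ∧ ∀ r : ℕ, 1 ≤ r →
        ∃ (V : Type) (G : SimpleGraph V), 𝒞 V G ∧
          IsMinor G r (⊤ : SimpleGraph (Fin ⌊(r : ℝ) ^ (1 / δ - 1)⌋₊))) ∧
    ∀ c ∈ A, 1 ≤ c := by
  have first : ∀ δ : ℝ, 0 < δ → δ ≤ 1 → ∃ 𝒞 : (V : Type) → SimpleGraph V → Prop,
      IsMonotoneClass 𝒞 ∧ HasSeparators 𝒞 δ ∧ ∀ r : ℕ, 1 ≤ r →
        ∃ (V : Type) (G : SimpleGraph V), 𝒞 V G ∧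
          IsMinor G r (⊤ : SimpleGraph (Fin ⌊(r : ℝ) ^ (1 / δ - 1)⌋₊)) :=
    fun δ h1 h2 => ⟨Cls δ, cls_mono δ, cls_sep δ h1 h2, cls_minor δ h1⟩
  refine ⟨first, ?_⟩
  rintro c ⟨hc0, hc⟩
  by_contra hlt
  push Not at hlt
  set δ : ℝ := (1 - c) / 2 with hδ
  have hδ0 : 0 < δ := by linarith
  have hδ1 : δ ≤ 1 := by linarith
  obtain ⟨𝒞, h1, h2, h3⟩ := first δ hδ0 hδ1
  obtain ⟨C, hC⟩ := hc δ hδ0 hδ1 𝒞 h1 h2
  have hexp : 0 < 1 / δ - 1 - c / δ := by
    have : 1 / δ - 1 - c / δ = (1 - δ - c) / δ := by field_simp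
    rw [this]
    apply div_pos _ hδ0
    linarith
  have hbd : ∀ r : ℕ, 1 ≤ r → (r : ℝ) ^ (1 / δ - 1 - c / δ) ≤ C + 2 := by
    intro r hr
    obtain ⟨V, G, hG, hm⟩ := h3 r hr
    have h4 := hC V G hG r _ _ hr hm
    set t := ⌊(r : ℝ) ^ (1 / δ - 1)⌋₊ with ht
    have hr' : (1 : ℝ) ≤ r := by exact_mod_cast hr
    have h5 : ((⊤ : SimpleGraph (Fin t)).edgeSet.ncard : ℝ) = t * (t - 1) / 2 := by
      classical
      rw [← SimpleGraph.coe_edgeFinset, Set.ncard_coe_finset,
        SimpleGraph.card_edgeFinset_top_eq_card_choose_two, Fintype.card_fin,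
        Nat.cast_choose_two]
    have hγ : 0 ≤ 1 / δ - 1 := by
      have : 1 ≤ 1 / δ := by rw [le_div_iff₀ hδ0]; linarith
      linarith
    have ht1 : (1 : ℝ) ≤ t := by
      have : 1 ≤ t := by
        rw [ht]
        apply Nat.le_floor
        rw [Nat.cast_one]
        exact Real.one_le_rpow hr' hγ
      exact_mod_cast this
    have h6 : (t : ℝ) - 1 ≤ C * (r : ℝ) ^ (c / δ) := by
      rw [h5] at h4
      have h7 : ((t : ℝ) - 1) * t ≤ (C * (r : ℝ) ^ (c / δ)) * t := by linarith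
      exact le_of_mul_le_mul_right h7 (by linarith)
    have h8 : (r : ℝ) ^ (1 / δ - 1) < t + 1 := Nat.lt_floor_add_one _
    have h9 : 1 ≤ (r : ℝ) ^ (c / δ) := Real.one_le_rpow hr' (by positivity)
    have h10 : (r : ℝ) ^ (1 / δ - 1) = (r : ℝ) ^ (1 / δ - 1 - c / δ) * (r : ℝ) ^ (c / δ) := by
      rw [← Real.rpow_add (by linarith)]
      congr 1
      ring
    have h11 : (r : ℝ) ^ (1 / δ - 1 - c / δ) * (r : ℝ) ^ (c / δ) ≤
        (C + 2) * (r : ℝ) ^ (c / δ) := by
      rw [← h10]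
      linarith
    exact le_of_mul_le_mul_right h11 (by linarith)
  have htend : Filter.Tendsto (fun r : ℕ => (r : ℝ) ^ (1 / δ - 1 - c / δ)) Filter.atTop
      Filter.atTop := (tendsto_rpow_atTop hexp).comp tendsto_natCast_atTop_atTop
  obtain ⟨r, hr1, hr2⟩ := ((htend.eventually_gt_atTop (C + 2)).and
    (Filter.eventually_ge_atTop 1)).exists
  exact absurd (hbd r hr2) (not_le.2 hr1)

end Pool.Agent.Results.MP_2f3b43_co.ExponentOne
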